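import Pool.Agent.Lib.helper32.Luz2

set_option autoImplicit false

namespace Pool.Agent.Results.MP_f722f0_gt.Products

open Set Pool.Agent.Lib.helper32.Tau

theorem result (hCH : Cardinal.continuum.{0} = Cardinal.aleph 1) :
    ∃ X : Set ℝ, (Split (Z := X) Ta Ta ∧ ¬ Split (Z := X × X) Ta Ta) ∧
      Cho (Z := X) Ta Ga ∧ ¬ Cho (Z := X × X) Ta Ga := by
  obtain ⟨X, h1, W, h2, h3, h4, h5⟩ := exl hCH
  exact ⟨X, ⟨cho_split h1, nsplit h2 h3 h4 h5⟩, h1, fun h => nsplit h2 h3 h4 h5 (cho_split h)⟩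

end Pool.Agent.Results.MP_f722f0_gt.Products
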